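import Pool.Agent.N463.MI.Stm

/-!
# Project MI, part C02m: the even terms near `π` (helper163)
-/

set_option autoImplicit false

open Finset Filter Topology

noncomputable section

namespace Pool.Agent.N163.MI.C02m

open Pool.Agent.N463.MI

/-- a partial sum against the whole sum -/
theorem tailb (h : ℕ → ℝ) (S : ℝ) (hs : HasSum h S) (hl : ∀ l : ℕ, -(1 / ((l : ℝ) + 1) ^ 2) ≤ h l) :
    ∑ l ∈ range 39, h l ≤ S + 1 / 39 := by
  have key : ∀ N : ℕ, ∑ l ∈ range 39, h l ≤ ∑ l ∈ range (39 + N), h l + 1 / 39 -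
      1 / (39 + (N : ℝ)) := by
    intro N
    induction N with
    | zero => simp
    | succ N ih =>
      refine ih.trans ?_
      rw [show 39 + (N + 1) = (39 + N) + 1 by ring, Finset.sum_range_succ]
      have h1 := hl (39 + N)
      have h2 : 1 / (((39 + N : ℕ) : ℝ) + 1) ^ 2 ≤ 1 / (39 + (N : ℝ)) - 1 / (39 + ((N + 1 : ℕ) : ℝ)) := by
        push_cast
        have hN : (0 : ℝ) ≤ N := Nat.cast_nonneg N
        rw [div_sub_div _ _ (by positivity) (by positivity), div_le_div_iff₀ (by positivity)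
          (by positivity)]
        nlinarith
      linarith
  have ht : Tendsto (fun N : ℕ => ∑ l ∈ range (39 + N), h l + 1 / 39) atTop (𝓝 (S + 1 / 39)) := by
    refine Tendsto.add_const _ ?_
    exact (hs.tendsto_sum_nat).comp (tendsto_add_atTop_nat 39 |>.congr fun N => add_comm N 39)
  refine ge_of_tendsto' ht fun N => (key N).trans ?_
  have : (0 : ℝ) ≤ 1 / (39 + (N : ℝ)) := by positivity
  linarith

/-- the bracket -/
theorem brk (h3 : B03) (y : ℝ) (hy : 0 ≤ y) :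
    ∑ l ∈ range 39, (1 - 2 * Real.cos (2 * ((l : ℝ) + 1) * y)) / ((l : ℝ) + 1) ^ 2 ≤
      (if y ≤ Real.pi then -(Real.pi ^ 2 / 6) + 2 * Real.pi * y - 2 * y ^ 2
        else Real.pi ^ 2 / 3) + 1 / 39 := by
  have hz : HasSum (fun l : ℕ => 1 / ((l : ℝ) + 1) ^ 2) (Real.pi ^ 2 / 6) := by
    have h0 := (hasSum_nat_add_iff' 1).2 hasSum_zeta_two
    simpa using h0
  have hl : ∀ l : ℕ, -(1 / ((l : ℝ) + 1) ^ 2) ≤
      (1 - 2 * Real.cos (2 * ((l : ℝ) + 1) * y)) / ((l : ℝ) + 1) ^ 2 := by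
    intro l
    rw [← neg_div]
    apply div_le_div_of_nonneg_right _ (by positivity)
    have := Real.cos_le_one (2 * ((l : ℝ) + 1) * y)
    linarith
  split_ifs with hyp
  · have h1 := h3.1 y hy hyp
    have h2 := hz.sub (h1.mul_left 2)
    have h4 := tailb _ _ (h2.congr_fun ?_) hl
    · refine h4.trans (le_of_eq ?_)
      ring
    · intro l
      push_cast
      ring
  · obtain ⟨h1, h2⟩ := h3.2 (2 * y)
    have h5 := hz.sub (h1.hasSum.mul_left 2)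
    have h4 := tailb _ _ (h5.congr_fun ?_) hl
    · refine h4.trans ?_
      linarith
    · intro l
      push_cast
      rw [show 2 * ((l : ℝ) + 1) * y = ((l : ℝ) + 1) * (2 * y) by ring]
      ring

/-- one term -/
theorem term (h1 : B01) (a t h : ℝ) (K l : ℕ) (ha : 2 ≤ a) (ht : 0 < t) (hl : l < 39)
    (ht1 : 78 * t ≤ 1) (hh : 0 ≤ h) (hh1 : h ≤ 1 / 25) :
    cf a (K * (Real.pi - h)) (2 * l + 1) / ((2 * l + 1 : ℕ) + 1) *
      ((kr ((2 * l + 2 : ℕ) * t) ((2 * l + 2 : ℕ) * (Real.pi - h)) - 1) / 2) ≤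
    t / (4 * (t ^ 2 + h ^ 2)) * ((1 - 2 * Real.cos (2 * ((l : ℝ) + 1) * (K * h))) / ((l : ℝ) + 1) ^ 2
      + (a⁻¹) ^ (2 * l + 2) / ((l : ℝ) + 1) ^ 2) + 1.625 * t + 1 / (4 * ((l : ℝ) + 1)) := by
  obtain ⟨n, hn⟩ : ∃ n : ℝ, n = (l : ℝ) + 1 := ⟨_, rfl⟩
  have hl0 : (0 : ℝ) ≤ l := Nat.cast_nonneg l
  have hl38 : (l : ℝ) ≤ 38 := by exact_mod_cast (by omega : l ≤ 38)
  have hn1 : 1 ≤ n := by rw [hn]; linarith
  have hn39 : n ≤ 39 := by rw [hn]; linarith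
  have hm : (((2 * l + 2 : ℕ) : ℝ)) = 2 * n := by rw [hn]; push_cast; ring
  have hm1 : (((2 * l + 1 : ℕ) : ℝ)) + 1 = 2 * n := by rw [hn]; push_cast; ring
  -- the coefficient
  obtain ⟨C, hC⟩ : ∃ C : ℝ, C = Real.cos (2 * n * (K * h)) := ⟨_, rfl⟩
  obtain ⟨q, hq⟩ : ∃ q : ℝ, q = (a⁻¹) ^ (2 * l + 2) := ⟨_, rfl⟩
  have hc : cf a (K * (Real.pi - h)) (2 * l + 1) = 1 - 2 * C + q := by
    unfold cf
    rw [Odd.neg_one_pow ⟨l, rfl⟩]
    have e1 : ((2 * l + 1 + 1 : ℕ) : ℝ) * (K * (Real.pi - h)) =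
        (((l + 1) * K : ℕ) : ℝ) * (2 * Real.pi) - 2 * n * (K * h) := by
      rw [hn]; push_cast; ring
    rw [e1, Real.cos_nat_mul_two_pi_sub, ← hC, hq]
    ring
  have hk : kr ((2 * l + 2 : ℕ) * t) ((2 * l + 2 : ℕ) * (Real.pi - h)) = kr (2 * n * t) (2 * n * h) := by
    unfold kr
    have e1 : ((2 * l + 2 : ℕ) : ℝ) * (Real.pi - h) =
        ((l + 1 : ℕ) : ℝ) * (2 * Real.pi) - 2 * n * h := by
      rw [hn]; push_cast; ring
    rw [e1, Real.cos_nat_mul_two_pi_sub, hm]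
  rw [hc, hk, hm1, ← hn, ← hC, ← hq]
  have hC1 : C ≤ 1 := by rw [hC]; exact Real.cos_le_one _
  have hC2 : -1 ≤ C := by rw [hC]; exact Real.neg_one_le_cos _
  have ha0 : 0 < a := by linarith
  have hai : a⁻¹ ≤ 1 / 2 := by
    rw [inv_le_comm₀ ha0 (by norm_num)]; norm_num; exact ha
  have hai0 : 0 ≤ a⁻¹ := by positivity
  have hq0 : 0 ≤ q := by rw [hq]; positivity
  have hq1 : q ≤ 1 / 4 := by
    rw [hq]
    calc (a⁻¹) ^ (2 * l + 2) ≤ (1 / 2 : ℝ) ^ (2 * l + 2) := pow_le_pow_left₀ hai0 hai _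
      _ ≤ (1 / 2 : ℝ) ^ 2 := pow_le_pow_of_le_one (by norm_num) (by norm_num) (by omega)
      _ = 1 / 4 := by norm_num
  have hB := h1 (2 * n * t) (2 * n * h) (by positivity) (by nlinarith) (by
    rw [abs_of_nonneg (by positivity)]
    have := Real.pi_gt_d4
    nlinarith)
  obtain ⟨e, he⟩ : ∃ e : ℝ, e = kr (2 * n * t) (2 * n * h) -
      2 * (2 * n * t) / ((2 * n * t) ^ 2 + (2 * n * h) ^ 2) := ⟨_, rfl⟩
  rw [← he] at hB
  have hkr : kr (2 * n * t) (2 * n * h) = 2 * (2 * n * t) / ((2 * n * t) ^ 2 + (2 * n * h) ^ 2) + e := by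
    rw [he]; ring
  have hn0 : 0 < n := by linarith
  have hth : 0 < t ^ 2 + h ^ 2 := by positivity
  have hG : 2 * (2 * n * t) / ((2 * n * t) ^ 2 + (2 * n * h) ^ 2) = t / (n * (t ^ 2 + h ^ 2)) := by
    field_simp
  rw [hkr, hG]
  have hce : (1 - 2 * C + q) * e ≤ 3.25 * (2 * n * t) := by
    calc (1 - 2 * C + q) * e ≤ |(1 - 2 * C + q) * e| := le_abs_self _
      _ = |1 - 2 * C + q| * |e| := abs_mul _ _
      _ ≤ 3.25 * (2 * n * t) := by
          apply mul_le_mul _ hB (abs_nonneg _) (by norm_num)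
          rw [abs_le]; constructor <;> linarith
  have e1 : (1 - 2 * C + q) / (2 * n) * ((t / (n * (t ^ 2 + h ^ 2)) + e - 1) / 2) =
      t / (4 * (t ^ 2 + h ^ 2)) * ((1 - 2 * C) / n ^ 2 + q / n ^ 2) + (1 - 2 * C + q) * e / (4 * n)
        + (2 * C - 1 - q) / (4 * n) := by
    field_simp
    ring
  rw [e1]
  have e2 : (1 - 2 * C + q) * e / (4 * n) ≤ 1.625 * t := by
    rw [div_le_iff₀ (by positivity)]
    nlinarith
  have e3 : (2 * C - 1 - q) / (4 * n) ≤ 1 / (4 * n) :=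
    div_le_div_of_nonneg_right (by linarith) (by positivity)
  linarith

/-- harmonic sum -/
theorem harm : ∑ l ∈ range 39, 1 / (4 * ((l : ℝ) + 1)) ≤ 1.064 := by
  norm_num [Finset.sum_range_succ]

theorem s2 : ∑ l ∈ range 39, ((2 : ℝ)⁻¹) ^ (2 * l + 2) / ((l : ℝ) + 1) ^ 2 ≤ 0.268 := by
  norm_num [Finset.sum_range_succ]

theorem s3 : ∑ l ∈ range 39, ((3 : ℝ)⁻¹) ^ (2 * l + 2) / ((l : ℝ) + 1) ^ 2 ≤ 0.1145 := by
  norm_num [Finset.sum_range_succ]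

/-- the quadratic inequality -/
theorem quad (y c s q : ℝ) (hy : 0 ≤ y) (hq : 0 < q) (hs : s ≤ 0.268) (hc : 1 ≤ c)
    (hq1 : 1 ≤ c / q)
    (hdisc : Real.pi ^ 2 ≤ (c / q + 2) * (c + Real.pi ^ 2 / 6 - s - 1 / 39)) :
    (if y ≤ Real.pi then -(Real.pi ^ 2 / 6) + 2 * Real.pi * y - 2 * y ^ 2
        else Real.pi ^ 2 / 3) + 1 / 39 + s ≤ c + c / q * y ^ 2 := by
  obtain ⟨k, hk⟩ : ∃ k : ℝ, k = c / q := ⟨_, rfl⟩
  rw [← hk] at hdisc hq1 ⊢
  have hk0 : 0 < k := by rw [hk]; positivity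
  have hp := Real.pi_gt_d4
  split_ifs with h
  · have h1 : 0 ≤ ((k + 2) * y - Real.pi) ^ 2 := sq_nonneg _
    have h2 : 0 < k + 2 := by linarith
    have h3 : 0 ≤ (k + 2) * ((k + 2) * y ^ 2 - 2 * Real.pi * y + (c + Real.pi ^ 2 / 6 - s - 1 / 39)) := by
      nlinarith
    have h4 := nonneg_of_mul_nonneg_right h3 h2
    linarith
  · push Not at h
    have h1 : Real.pi ^ 2 ≤ y ^ 2 := pow_le_pow_left₀ (by linarith) h.le 2
    have h2 : y ^ 2 ≤ k * y ^ 2 := by nlinarith [sq_nonneg y]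
    have h3 : 0 ≤ Real.pi ^ 2 := sq_nonneg _
    linarith

theorem assemble (h1 : B01) (h3 : B03) (a : ℝ) (K : ℕ) (t h c s q : ℝ) (ha : 2 ≤ a) (hK : 1 ≤ K)
    (ht : t = Real.log a / K) (htu : t ≤ 0.0028) (hh : 0 ≤ h) (hh1 : h ≤ 1 / 25)
    (hs1 : ∑ l ∈ range 39, (a⁻¹) ^ (2 * l + 2) / ((l : ℝ) + 1) ^ 2 ≤ s) (hs : s ≤ 0.268)
    (hc : 1 ≤ c) (hq : (Real.log a) ^ 2 ≤ q) (hq1 : 1 ≤ c / q)
    (hdisc : Real.pi ^ 2 ≤ (c / q + 2) * (c + Real.pi ^ 2 / 6 - s - 1 / 39)) :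
    ∑ l ∈ range 39, cf a (K * (Real.pi - h)) (2 * l + 1) / ((2 * l + 1 : ℕ) + 1) *
      ((kr ((2 * l + 2 : ℕ) * t) ((2 * l + 2 : ℕ) * (Real.pi - h)) - 1) / 2) ≤
      c / 4 / t + 1.4 := by
  have hK0 : (0 : ℝ) < K := by exact_mod_cast hK
  have hL0 : 0 < Real.log a := Real.log_pos (by linarith)
  have ht0 : 0 < t := by rw [ht]; positivity
  have hq0 : 0 < q := lt_of_lt_of_le (by positivity) hq
  obtain ⟨W, hW⟩ : ∃ W : ℝ, W = t / (4 * (t ^ 2 + h ^ 2)) := ⟨_, rfl⟩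
  have hW0 : 0 < W := by rw [hW]; positivity
  have hsum : ∑ l ∈ range 39, cf a (K * (Real.pi - h)) (2 * l + 1) / ((2 * l + 1 : ℕ) + 1) *
      ((kr ((2 * l + 2 : ℕ) * t) ((2 * l + 2 : ℕ) * (Real.pi - h)) - 1) / 2) ≤
      W * (∑ l ∈ range 39, (1 - 2 * Real.cos (2 * ((l : ℝ) + 1) * (K * h))) / ((l : ℝ) + 1) ^ 2 +
        ∑ l ∈ range 39, (a⁻¹) ^ (2 * l + 2) / ((l : ℝ) + 1) ^ 2) + 39 * (1.625 * t) +
        ∑ l ∈ range 39, 1 / (4 * ((l : ℝ) + 1)) := by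
    have e : W * (∑ l ∈ range 39, (1 - 2 * Real.cos (2 * ((l : ℝ) + 1) * (K * h))) / ((l : ℝ) + 1) ^ 2 +
        ∑ l ∈ range 39, (a⁻¹) ^ (2 * l + 2) / ((l : ℝ) + 1) ^ 2) + 39 * (1.625 * t) +
        ∑ l ∈ range 39, 1 / (4 * ((l : ℝ) + 1)) =
        ∑ l ∈ range 39, (W * ((1 - 2 * Real.cos (2 * ((l : ℝ) + 1) * (K * h))) / ((l : ℝ) + 1) ^ 2 +
        (a⁻¹) ^ (2 * l + 2) / ((l : ℝ) + 1) ^ 2) + 1.625 * t + 1 / (4 * ((l : ℝ) + 1))) := by
      rw [Finset.sum_add_distrib, Finset.sum_add_distrib, ← Finset.mul_sum,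
        Finset.sum_add_distrib, Finset.sum_const, Finset.card_range, nsmul_eq_mul]
      norm_num
    rw [e, hW]
    exact Finset.sum_le_sum fun l hl => term h1 a t h K l ha ht0 (Finset.mem_range.1 hl)
      (by linarith) hh hh1
  have hy : 0 ≤ (K : ℝ) * h := by positivity
  have hb := brk h3 ((K : ℝ) * h) hy
  have hqd := quad ((K : ℝ) * h) c s q hy hq0 hs hc hq1 hdisc
  have hA : ∑ l ∈ range 39, (1 - 2 * Real.cos (2 * ((l : ℝ) + 1) * (K * h))) / ((l : ℝ) + 1) ^ 2 +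
        ∑ l ∈ range 39, (a⁻¹) ^ (2 * l + 2) / ((l : ℝ) + 1) ^ 2 ≤
        c + c / q * ((K : ℝ) * h) ^ 2 := by linarith
  have hA2 : c / q * ((K : ℝ) * h) ^ 2 ≤ c * (h ^ 2 / t ^ 2) := by
    have e1 : h ^ 2 / t ^ 2 = ((K : ℝ) * h) ^ 2 / (Real.log a) ^ 2 := by
      rw [ht]; field_simp
    rw [e1, div_mul_eq_mul_div, mul_div_assoc]
    apply mul_le_mul_of_nonneg_left _ (by linarith)
    exact div_le_div_of_nonneg_left (by positivity) (by positivity) hq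
  have hA3 : W * (∑ l ∈ range 39, (1 - 2 * Real.cos (2 * ((l : ℝ) + 1) * (K * h))) / ((l : ℝ) + 1) ^ 2 +
        ∑ l ∈ range 39, (a⁻¹) ^ (2 * l + 2) / ((l : ℝ) + 1) ^ 2) ≤ c / 4 / t := by
    calc _ ≤ W * (c + c * (h ^ 2 / t ^ 2)) :=
          mul_le_mul_of_nonneg_left (by linarith) hW0.le
      _ = c / 4 / t := by
          rw [hW]
          have : 0 < t ^ 2 + h ^ 2 := by positivity
          field_simp
  have hH := harm
  linarith

theorem t_C02m (h1 : B01) (h3 : B03) : C02m := by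
  intro a K θ t hA ht hθ1 hθ2
  obtain ⟨h, hh⟩ : ∃ h : ℝ, h = Real.pi - θ := ⟨_, rfl⟩
  have hθ : θ = Real.pi - h := by rw [hh]; ring
  have hh0 : 0 ≤ h := by rw [hh]; linarith
  have hh1 : h ≤ 1 / 25 := by rw [hh]; linarith
  rw [hθ]
  have hp1 := Real.pi_gt_d6
  have hp2 := Real.pi_lt_d6
  have hp3 : Real.pi ^ 2 ≤ 9.86961 := by nlinarith
  have hp4 : 9.8696 ≤ Real.pi ^ 2 := by nlinarith
  rcases hA with ⟨ha, hK⟩ | ⟨ha, hK⟩
  · have hL1 := Real.log_two_lt_d9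
    have hL2 := Real.log_two_gt_d9
    have hKr : (340 : ℝ) ≤ K := by exact_mod_cast hK
    rw [if_pos ha]
    subst ha
    have htu : t ≤ 0.0028 := by
      rw [ht, div_le_iff₀ (by linarith)]
      nlinarith
    have hq : (Real.log 2) ^ 2 ≤ 0.4805 := by nlinarith
    have := assemble h1 h3 2 K t h 1.08 0.268 0.4805 le_rfl (by omega) ht htu hh0 hh1 s2 le_rfl
      (by norm_num) hq (by norm_num) (by norm_num; nlinarith)
    refine this.trans (le_of_eq ?_)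
    norm_num
  · have hL1 := Real.log_three_lt_d9
    have hL2 := Real.log_three_gt_d9
    have hKr : (400 : ℝ) ≤ K := by exact_mod_cast hK
    rw [if_neg (by rw [ha]; norm_num)]
    subst ha
    have htu : t ≤ 0.0028 := by
      rw [ht, div_le_iff₀ (by linarith)]
      nlinarith
    have hq : (Real.log 3) ^ 2 ≤ 1.207 := by nlinarith
    have := assemble h1 h3 3 K t h 1.58 0.1145 1.207 (by norm_num) (by omega) ht htu hh0 hh1 s3
      (by norm_num) (by norm_num) hq (by norm_num) (by norm_num; nlinarith)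
    refine this.trans (le_of_eq ?_)
    norm_num

end Pool.Agent.N163.MI.C02m
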